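import Pool.Agent.Q192.FA.M

/-!
# Project FA (helper120), job ME: `F` in `L^p` gives a zero-free half plane
-/

set_option autoImplicit false

namespace Pool.Agent.Q192.FA

open MeasureTheory Filter Topology Set
open Pool.Agent.Q120.FA

theorem meas_abs_rpow (p : ℝ) : Measurable fun x : ℝ => |F x| ^ p := measurable_F.abs.pow_const p

theorem int_pow {p : ℝ} (h : ∫⁻ x in Ioi (1 : ℝ), ENNReal.ofReal (|F x| ^ p) ≠ ⊤) :
    IntegrableOn (fun x => |F x| ^ p) (Ioi 1) :=
  (lintegral_ofReal_ne_top_iff_integrable (meas_abs_rpow p).aestronglyMeasurable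
    (ae_of_all _ fun x => Real.rpow_nonneg (abs_nonneg _) _)).1 h

theorem meas_ker (σ : ℝ) : Measurable fun x : ℝ => |F x| * x ^ (-σ) :=
  measurable_F.abs.mul (measurable_id.pow_const _)

/-- Young's inequality -/
theorem young' {p q : ℝ} (hpq : p.HolderConjugate q) {l : ℝ} (hl : 0 < l) (σ : ℝ) {x : ℝ} (hx : 1 < x) :
    |F x| * x ^ (-σ) ≤ l ^ p / p * |F x| ^ p + (l ^ q)⁻¹ / q * x ^ (-(σ * q)) := by
  have hx0 : 0 < x := by linarith
  have h := Real.young_inequality_of_nonneg (a := l * |F x|) (b := x ^ (-σ) / l) (by positivity) (by positivity) hpq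
  have e1 : l * |F x| * (x ^ (-σ) / l) = |F x| * x ^ (-σ) := by field_simp
  rw [e1, Real.mul_rpow hl.le (abs_nonneg _), Real.div_rpow (by positivity) hl.le, ← Real.rpow_mul hx0.le] at h
  refine h.trans (le_of_eq ?_)
  rw [neg_mul]
  ring

theorem int_ker {a : ℝ} (ha : 1 < a) : IntegrableOn (fun x : ℝ => x ^ (-a)) (Ioi 1) :=
  integrableOn_Ioi_rpow_of_lt (by linarith) one_pos

theorem sig_mul {p q σ : ℝ} (hpq : p.HolderConjugate q) (hσ : 1 - 1 / p < σ) : 1 < σ * q := by
  have h1 : p⁻¹ + q⁻¹ = 1 := hpq.inv_add_inv_eq_one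
  have hq : 0 < q := hpq.symm.pos
  have h2 : q⁻¹ < σ := by
    rw [one_div] at hσ
    linarith
  calc (1 : ℝ) = q⁻¹ * q := (inv_mul_cancel₀ hq.ne').symm
    _ < σ * q := mul_lt_mul_of_pos_right h2 hq

theorem int_F {p : ℝ} (hp : 1 ≤ p) (hI : IntegrableOn (fun x => |F x| ^ p) (Ioi 1)) {σ : ℝ} (hσ : 1 - 1 / p < σ) :
    IntegrableOn (fun x : ℝ => |F x| * x ^ (-σ)) (Ioi 1) := by
  rcases hp.eq_or_lt with rfl | hp'
  · refine Integrable.mono' hI (meas_ker σ).aestronglyMeasurable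
      ((ae_restrict_iff' measurableSet_Ioi).2 (Eventually.of_forall fun x (hx : 1 < x) => ?_))
    have hx0 : 0 < x := by linarith
    rw [Real.norm_of_nonneg (by positivity), Real.rpow_one]
    refine mul_le_of_le_one_right (abs_nonneg _) ?_
    exact Real.rpow_le_one_of_one_le_of_nonpos hx.le (by norm_num at hσ; linarith)
  · have hpq : p.HolderConjugate (p.conjExponent) := Real.HolderConjugate.conjExponent hp'
    have hb : IntegrableOn (fun x : ℝ => (1 : ℝ) ^ p / p * |F x| ^ p +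
        ((1 : ℝ) ^ p.conjExponent)⁻¹ / p.conjExponent * x ^ (-(σ * p.conjExponent))) (Ioi 1) :=
      (hI.const_mul _).add ((int_ker (sig_mul hpq hσ)).const_mul _)
    refine Integrable.mono' hb (meas_ker σ).aestronglyMeasurable
      ((ae_restrict_iff' measurableSet_Ioi).2 (Eventually.of_forall fun x (hx : 1 < x) => ?_))
    have hx0 : 0 < x := by linarith
    rw [Real.norm_of_nonneg (by positivity)]
    exact young' hpq one_pos σ hx

theorem norm_H_le {p q : ℝ} (hpq : p.HolderConjugate q) (hI : IntegrableOn (fun x => |F x| ^ p) (Ioi 1)) {l : ℝ}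
    (hl : 0 < l) {s : ℂ} (hs : 1 - 1 / p < s.re) :
    ‖H s‖ ≤ l ^ p / p * (∫ x in Ioi (1 : ℝ), |F x| ^ p) + (l ^ q)⁻¹ / q * (1 / (s.re * q - 1)) := by
  have h1 := sig_mul hpq hs
  have e : ∫ x in Ioi (1 : ℝ), x ^ (-(s.re * q)) = 1 / (s.re * q - 1) := by
    rw [integral_Ioi_rpow_of_lt (by linarith) one_pos, Real.one_rpow, neg_div, ← div_neg, neg_add, neg_neg]
    rfl
  rw [← e, ← integral_const_mul, ← integral_const_mul, ← integral_add (hI.const_mul _) ((int_ker h1).const_mul _), H]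
  refine norm_integral_le_of_norm_le ((hI.const_mul _).add ((int_ker h1).const_mul _))
    ((ae_restrict_iff' measurableSet_Ioi).2 (Eventually.of_forall fun x (hx : 1 < x) => ?_))
  rw [norm_mul, norm_cpow' hx, Complex.norm_real, Real.norm_eq_abs, Complex.neg_re]
  exact young' hpq hl s.re hx

theorem hasDerivAt_H {p : ℝ} (hp : 1 ≤ p) (hI : IntegrableOn (fun x => |F x| ^ p) (Ioi 1)) {s₀ : ℂ}
    (hs : 1 - 1 / p < s₀.re) : DifferentiableAt ℂ H s₀ := by
  obtain ⟨d, hd⟩ : ∃ d, d = s₀.re - (1 - 1 / p) := ⟨_, rfl⟩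
  have hd0 : 0 < d := by linarith
  have hσ1 : 1 - 1 / p < 1 - 1 / p + d / 4 := by linarith
  have hball : ∀ s ∈ Metric.ball s₀ (d / 2), 1 - 1 / p + d / 2 ≤ s.re := by
    intro s hs
    have h1 : |(s - s₀).re| ≤ ‖s - s₀‖ := Complex.abs_re_le_norm _
    rw [Metric.mem_ball, dist_eq_norm] at hs
    have h2 := (abs_le.1 (h1.trans hs.le)).1
    rw [Complex.sub_re] at h2
    linarith
  have hmeas : ∀ s : ℂ, Measurable fun x : ℝ => (F x : ℂ) * (x : ℂ) ^ (-s) := fun s =>
    (Complex.measurable_ofReal.comp measurable_F).mul (meas_cpow _)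
  have hnorm : ∀ (s : ℂ) (x : ℝ), 1 < x → ‖(F x : ℂ) * (x : ℂ) ^ (-s)‖ = |F x| * x ^ (-s.re) := by
    intro s x hx
    rw [norm_mul, norm_cpow' hx, Complex.norm_real, Real.norm_eq_abs, Complex.neg_re]
  refine (hasDerivAt_integral_of_dominated_loc_of_deriv_le (μ := volume.restrict (Ioi (1 : ℝ)))
    (F := fun s x => (F x : ℂ) * (x : ℂ) ^ (-s))
    (F' := fun s x => (F x : ℂ) * ((x : ℂ) ^ (-s) * Complex.log x * (-1)))
    (bound := fun x => 4 / d * (|F x| * x ^ (-(1 - 1 / p + d / 4)))) (Metric.ball_mem_nhds s₀ (half_pos hd0))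
    (Eventually.of_forall fun s => (hmeas s).aestronglyMeasurable) ?_ ?_ ?_
    ((int_F hp hI hσ1).const_mul _) ?_).2.differentiableAt
  · refine Integrable.mono' (int_F hp hI hs) (hmeas s₀).aestronglyMeasurable
      ((ae_restrict_iff' measurableSet_Ioi).2 (Eventually.of_forall fun x (hx : 1 < x) => ?_))
    exact (hnorm s₀ x hx).le
  · refine Measurable.aestronglyMeasurable ?_
    exact (Complex.measurable_ofReal.comp measurable_F).mul
      (((meas_cpow _).mul (Complex.measurable_log.comp Complex.measurable_ofReal)).mul_const _)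
  · refine (ae_restrict_iff' measurableSet_Ioi).2 (Eventually.of_forall fun x (hx : 1 < x) s hs => ?_)
    have hx0 : 0 < x := by linarith
    have hlog : 0 ≤ Real.log x := Real.log_nonneg hx.le
    have h1 : ‖(F x : ℂ) * ((x : ℂ) ^ (-s) * Complex.log x * (-1))‖ = |F x| * x ^ (-s.re) * Real.log x := by
      rw [← hnorm s x hx, ← Complex.ofReal_log hx0.le, norm_mul, norm_mul, norm_mul, norm_mul, norm_neg, norm_one,
        mul_one, Complex.norm_real (Real.log x), Real.norm_of_nonneg hlog, mul_assoc]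
    rw [h1]
    have h2 : Real.log x ≤ x ^ (d / 4) / (d / 4) := Real.log_le_rpow_div hx0.le (by linarith)
    have h3 : x ^ (-s.re) ≤ x ^ (-(1 - 1 / p + d / 2)) :=
      Real.rpow_le_rpow_of_exponent_le hx.le (by linarith [hball s hs])
    calc |F x| * x ^ (-s.re) * Real.log x
        ≤ |F x| * x ^ (-(1 - 1 / p + d / 2)) * (x ^ (d / 4) / (d / 4)) := by gcongr
      _ = 4 / d * (|F x| * (x ^ (-(1 - 1 / p + d / 2)) * x ^ (d / 4))) := by
          field_simp
      _ = _ := by
          rw [← Real.rpow_add hx0]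
          congr 4
          ring
  · refine (ae_restrict_iff' measurableSet_Ioi).2 (Eventually.of_forall fun x (hx : 1 < x) s _ => ?_)
    have hx0 : (x : ℂ) ≠ 0 := Complex.ofReal_ne_zero.2 (by linarith)
    exact ((hasDerivAt_neg s).const_cpow (Or.inl hx0)).const_mul _

/-- the functional relation -/
theorem rel {p : ℝ} (hp : 1 ≤ p) (hI : IntegrableOn (fun x => |F x| ^ p) (Ioi 1)) {s : ℂ}
    (hs : 1 - 1 / p < s.re) :
    s * Zt s * ((s - 2) * H s + 3 / (Real.pi : ℂ) ^ 2) = Zt (s - 1) := by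
  have hU : IsOpen {s : ℂ | 1 - 1 / p < s.re} := isOpen_lt continuous_const Complex.continuous_re
  have hUc : Convex ℝ {s : ℂ | 1 - 1 / p < s.re} := convex_halfSpace_re_gt _
  have hf : AnalyticOnNhd ℂ (fun s : ℂ => s * Zt s * ((s - 2) * H s + 3 / (Real.pi : ℂ) ^ 2))
      {s : ℂ | 1 - 1 / p < s.re} := by
    refine DifferentiableOn.analyticOnNhd (fun s hs => ?_) hU
    refine DifferentiableAt.differentiableWithinAt ?_
    exact (differentiableAt_id.mul differentiable_Zt.differentiableAt).mul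
      (((differentiableAt_id.sub_const 2).mul (hasDerivAt_H hp hI hs)).add_const _)
  have hg : AnalyticOnNhd ℂ (fun s : ℂ => Zt (s - 1)) {s : ℂ | 1 - 1 / p < s.re} := by
    refine DifferentiableOn.analyticOnNhd (fun s hs => ?_) hU
    exact (differentiable_Zt.comp (differentiable_id.sub_const 1)).differentiableAt.differentiableWithinAt
  have hp0 : 0 < 1 / p := by positivity
  have h3 : (3 : ℂ) ∈ {s : ℂ | 1 - 1 / p < s.re} := by
    change 1 - 1 / p < (3 : ℂ).re
    norm_num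
    rw [one_div] at hp0
    linarith
  have hev : (fun s : ℂ => s * Zt s * ((s - 2) * H s + 3 / (Real.pi : ℂ) ^ 2)) =ᶠ[𝓝 3] fun s : ℂ => Zt (s - 1) := by
    have h4 : {s : ℂ | 2 < s.re} ∈ 𝓝 (3 : ℂ) :=
      (isOpen_lt continuous_const Complex.continuous_re).mem_nhds (by
        change 2 < (3 : ℂ).re
        norm_num)
    filter_upwards [h4] with s hs
    exact rel_gt hs
  exact hf.eqOn_of_preconnected_of_eventuallyEq hg hUc.isPreconnected h3 hev hs

/-- a zero forces `Zt (ρ - 1) = 0` -/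
theorem Zt_eq_zero {p : ℝ} (hp : 1 ≤ p) (hI : IntegrableOn (fun x => |F x| ^ p) (Ioi 1)) {s : ℂ}
    (hz : riemannZeta s = 0) (h0 : 0 < s.re) (h1 : s.re < 1) (hs : 1 - 1 / p ≤ s.re) : Zt (s - 1) = 0 := by
  have hs1 : s ≠ 1 := fun h => by rw [h, Complex.one_re] at h1; exact lt_irrefl _ h1
  have hZ : Zt s = 0 := by rw [Zt_eq hs1, hz, mul_zero]
  rcases hs.lt_or_eq with hs' | hs'
  · rw [← rel hp hI hs', hZ, mul_zero, zero_mul]
  have hp' : 1 < p := by
    rcases hp.eq_or_lt with rfl | h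
    · norm_num at hs'
      linarith
    · exact h
  have hpq : p.HolderConjugate (p.conjExponent) := Real.HolderConjugate.conjExponent hp'
  obtain ⟨q, hq⟩ : ∃ q, q = p.conjExponent := ⟨_, rfl⟩
  rw [← hq] at hpq
  have hq0 : 0 < q := hpq.symm.pos
  have hsq : s.re * q = 1 := by
    rw [← hs', one_div]
    have h1 : p⁻¹ + q⁻¹ = 1 := hpq.inv_add_inv_eq_one
    have h2 : 1 - p⁻¹ = q⁻¹ := by linarith
    rw [h2, inv_mul_cancel₀ hq0.ne']
  have hre : ∀ δ : ℝ, (s + (δ : ℂ)).re = s.re + δ := fun δ => by rw [Complex.add_re, Complex.ofReal_re]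
  -- `δ H(s + δ) → 0`
  have hH : Tendsto (fun δ : ℝ => (δ : ℂ) * H (s + δ)) (𝓝[>] 0) (𝓝 0) := by
    rw [tendsto_zero_iff_norm_tendsto_zero]
    obtain ⟨I, hI'⟩ : ∃ I, I = ∫ x in Ioi (1 : ℝ), |F x| ^ p := ⟨_, rfl⟩
    have hI0 : 0 ≤ I := by
      rw [hI']
      exact integral_nonneg fun x => Real.rpow_nonneg (abs_nonneg _) _
    have hb : ∀ l : ℝ, 0 < l → ∀ δ : ℝ, 0 < δ → ‖(δ : ℂ) * H (s + δ)‖ ≤ δ * (l ^ p / p * I) + (l ^ q)⁻¹ / q / q := by
      intro l hl δ hδ
      have h5 := norm_H_le hpq hI hl (s := s + δ) (by rw [hre, hs']; linarith)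
      rw [hre, add_mul, hsq, add_sub_cancel_left, ← hI'] at h5
      rw [norm_mul, Complex.norm_real, Real.norm_of_nonneg hδ.le]
      calc δ * ‖H (s + δ)‖ ≤ δ * (l ^ p / p * I + (l ^ q)⁻¹ / q * (1 / (δ * q))) :=
            mul_le_mul_of_nonneg_left h5 hδ.le
        _ = _ := by
            field_simp
    rw [Metric.tendsto_nhdsWithin_nhds]
    intro ε hε
    -- choose `l`
    have hl : Tendsto (fun l : ℝ => (l ^ q)⁻¹ / q / q) atTop (𝓝 0) := by
      have h6 : Tendsto (fun l : ℝ => (l ^ q)⁻¹) atTop (𝓝 0) := (tendsto_rpow_atTop hq0).inv_tendsto_atTop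
      simpa using (h6.div_const q).div_const q
    obtain ⟨l, hl1, hl2⟩ := ((hl.eventually (gt_mem_nhds (half_pos hε))).and (eventually_gt_atTop 0)).exists
    refine ⟨ε / 2 / (l ^ p / p * I + 1), by positivity, ?_⟩
    intro δ hδ hd
    have hδ' : 0 < δ := hδ
    rw [dist_zero_right, Real.norm_of_nonneg hδ'.le] at hd
    rw [dist_zero_right, norm_norm]
    refine (hb l hl2 δ hδ').trans_lt ?_
    have hp0 : 0 < p := by linarith
    have h7 : 0 ≤ l ^ p / p * I := by positivity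
    have h8 : δ * (l ^ p / p * I) ≤ ε / 2 := by
      have h9 : δ * (l ^ p / p * I + 1) < ε / 2 := by rwa [lt_div_iff₀ (by linarith)] at hd
      nlinarith
    linarith
  -- the limit of the relation
  have hline : HasDerivAt (fun δ : ℝ => Zt (s + δ)) (deriv Zt s) 0 := by
    have h1 : HasDerivAt Zt (deriv Zt s) (s + (0 : ℝ)) := by
      rw [Complex.ofReal_zero, add_zero]
      exact differentiable_Zt.differentiableAt.hasDerivAt
    have h2 : HasDerivAt (fun δ : ℝ => s + (δ : ℂ)) 1 0 := (Complex.ofRealCLM.hasDerivAt).const_add s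
    have h3 := h1.comp (0 : ℝ) h2
    rwa [mul_one] at h3
  have hslope : Tendsto (fun δ : ℝ => Zt (s + δ) / δ) (𝓝[>] 0) (𝓝 (deriv Zt s)) := by
    have h1 := hline.tendsto_slope_zero_right
    refine h1.congr fun δ => ?_
    rw [zero_add, Complex.ofReal_zero, add_zero, hZ, sub_zero, Complex.real_smul, Complex.ofReal_inv]
    ring
  have hcs : Tendsto (fun δ : ℝ => s + (δ : ℂ)) (𝓝[>] 0) (𝓝 s) := by
    have h1 : Continuous fun δ : ℝ => s + (δ : ℂ) := continuous_const.add Complex.continuous_ofReal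
    have h2 := h1.tendsto 0
    rw [Complex.ofReal_zero, add_zero] at h2
    exact h2.mono_left nhdsWithin_le_nhds
  have hcZ : Tendsto (fun δ : ℝ => Zt (s + δ)) (𝓝[>] 0) (𝓝 0) := by
    have h1 := (differentiable_Zt.continuous.tendsto s).comp hcs
    rw [hZ] at h1
    exact h1
  have hleft : Tendsto (fun δ : ℝ => Zt (s + δ - 1)) (𝓝[>] 0) (𝓝 (Zt (s - 1))) :=
    (differentiable_Zt.continuous.tendsto _).comp (hcs.sub_const 1)
  have hright : Tendsto (fun δ : ℝ => (s + δ) * ((Zt (s + δ) / δ) * (s + δ - 2) * (δ * H (s + δ)) +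
      Zt (s + δ) * (3 / (Real.pi : ℂ) ^ 2))) (𝓝[>] 0)
      (𝓝 (s * ((deriv Zt s) * (s - 2) * 0 + 0 * (3 / (Real.pi : ℂ) ^ 2)))) :=
    hcs.mul (((hslope.mul (hcs.sub_const 2)).mul hH).add (hcZ.mul_const _))
  rw [mul_zero, zero_mul, add_zero, mul_zero] at hright
  refine tendsto_nhds_unique hleft (hright.congr' ?_)
  filter_upwards [self_mem_nhdsWithin] with δ hδ
  have hδ' : 0 < δ := hδ
  have hδ0 : (δ : ℂ) ≠ 0 := Complex.ofReal_ne_zero.2 hδ'.ne'
  rw [← rel hp hI (s := s + δ) (by rw [hre, hs']; linarith)]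
  field_simp

/-- `F` in `L^p` gives a zero-free half plane -/
theorem t_ME : J_ME := by
  intro p hp hF s hz h0 h1
  by_contra hcon
  rw [not_lt] at hcon
  have hI := int_pow hF
  have hZ := Zt_eq_zero hp hI hz h0 h1 hcon
  have hs2 : s - 1 ≠ 1 := fun h => by
    have h3 : s.re = 2 := by
      have : s = 2 := by linear_combination h
      rw [this]
      rfl
    linarith
  rw [Zt_eq hs2] at hZ
  rcases mul_eq_zero.1 hZ with h | h
  · exact hs2 (by linear_combination h)
  · exact zeta_ne_zero_left (by rw [Complex.sub_re, Complex.one_re]; linarith)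
      (by rw [Complex.sub_re, Complex.one_re]; linarith) h

end Pool.Agent.Q192.FA
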