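import Pool.Agent.Q192.FA.Z

/-!
# Project FA (helper120), job ME, part 2: the Mellin transform of `F`
-/

set_option autoImplicit false

namespace Pool.Agent.Q192.FA

open MeasureTheory Filter Topology Set
open Pool.Agent.Q120.FA

/-- `∑_{n ≤ x} φ(n)/n` -/
noncomputable def A1 (m : ℕ) : ℝ := ∑ n ∈ Finset.Icc 1 m, (n.totient : ℝ) / n

/-- `∑_{n ≤ x} φ(n)` -/
noncomputable def A2 (m : ℕ) : ℝ := ∑ n ∈ Finset.Icc 1 m, (n.totient : ℝ)

theorem F_eq (x : ℝ) : F x = A1 ⌊x⌋₊ - A2 ⌊x⌋₊ / x - 3 / Real.pi ^ 2 * x := by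
  rw [F, A1, A2, Finset.sum_div, ← Finset.sum_sub_distrib]
  congr 1
  refine Finset.sum_congr rfl fun n hn => ?_
  have hn0 : (n : ℝ) ≠ 0 := Nat.cast_ne_zero.2 (by have := (Finset.mem_Icc.1 hn).1; omega)
  field_simp

theorem measurable_floor (f : ℕ → ℝ) : Measurable fun x : ℝ => f ⌊x⌋₊ :=
  (measurable_from_nat (f := f)).comp Nat.measurable_floor

theorem measurable_F : Measurable F := by
  have h : F = fun x => A1 ⌊x⌋₊ - A2 ⌊x⌋₊ / x - 3 / Real.pi ^ 2 * x := funext F_eq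
  rw [h]
  exact ((measurable_floor A1).sub ((measurable_floor A2).div measurable_id)).sub
    (measurable_const.mul measurable_id)

theorem A1_nonneg (m : ℕ) : 0 ≤ A1 m := Finset.sum_nonneg fun n _ => by positivity

theorem A2_nonneg (m : ℕ) : 0 ≤ A2 m := Finset.sum_nonneg fun n _ => by positivity

theorem A1_le (m : ℕ) : A1 m ≤ m := by
  rw [A1]
  refine (Finset.sum_le_card_nsmul _ _ 1 fun n hn => ?_).trans (by simp)
  have hn0 : (0 : ℝ) < n := Nat.cast_pos.2 (by have := (Finset.mem_Icc.1 hn).1; omega)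
  rw [div_le_one hn0]
  exact_mod_cast Nat.totient_le n

theorem A2_le (m : ℕ) : A2 m ≤ (m : ℝ) ^ 2 := by
  rw [A2]
  refine (Finset.sum_le_card_nsmul _ _ (m : ℝ) fun n hn => ?_).trans (le_of_eq ?_)
  · exact_mod_cast (Nat.totient_le n).trans (Finset.mem_Icc.1 hn).2
  · rw [Nat.card_Icc, nsmul_eq_mul, Nat.add_sub_cancel, sq]

theorem floor_le' {x : ℝ} (hx : 1 < x) : ((⌊x⌋₊ : ℕ) : ℝ) ≤ x := Nat.floor_le (by linarith)

/-- the kernel -/
theorem norm_cpow' {x : ℝ} (hx : 1 < x) (s : ℂ) : ‖(x : ℂ) ^ s‖ = x ^ s.re :=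
  Complex.norm_cpow_eq_rpow_re_of_pos (by linarith) s

theorem meas_cpow (s : ℂ) : Measurable fun x : ℝ => (x : ℂ) ^ s := by
  fun_prop

/-- the Mellin transform -/
noncomputable def H (s : ℂ) : ℂ := ∫ x in Ioi (1 : ℝ), (F x : ℂ) * (x : ℂ) ^ (-s)

theorem int_A1 {s : ℂ} (hs : 2 < s.re) :
    IntegrableOn (fun x : ℝ => (A1 ⌊x⌋₊ : ℂ) * (x : ℂ) ^ (-s)) (Ioi 1) := by
  refine Integrable.mono' (integrableOn_Ioi_rpow_of_lt (a := 1 - s.re) (c := 1) (by linarith) one_pos)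
    (((Complex.measurable_ofReal.comp (measurable_floor A1)).mul (meas_cpow _)).aestronglyMeasurable) ?_
  refine (ae_restrict_iff' measurableSet_Ioi).2 (Eventually.of_forall fun x (hx : 1 < x) => ?_)
  rw [norm_mul, norm_cpow' hx, Complex.norm_real, Real.norm_of_nonneg (A1_nonneg _), Complex.neg_re]
  have hx0 : 0 < x := by linarith
  rw [sub_eq_add_neg, Real.rpow_add hx0, Real.rpow_one]
  exact mul_le_mul_of_nonneg_right ((A1_le _).trans (floor_le' hx)) (by positivity)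

theorem int_A2 {s : ℂ} (hs : 2 < s.re) :
    IntegrableOn (fun x : ℝ => (A2 ⌊x⌋₊ : ℂ) * (x : ℂ) ^ (-(s + 1))) (Ioi 1) := by
  refine Integrable.mono' (integrableOn_Ioi_rpow_of_lt (a := 1 - s.re) (c := 1) (by linarith) one_pos)
    (((Complex.measurable_ofReal.comp (measurable_floor A2)).mul (meas_cpow _)).aestronglyMeasurable) ?_
  refine (ae_restrict_iff' measurableSet_Ioi).2 (Eventually.of_forall fun x (hx : 1 < x) => ?_)
  rw [norm_mul, norm_cpow' hx, Complex.norm_real, Real.norm_of_nonneg (A2_nonneg _), Complex.neg_re, Complex.add_re,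
    Complex.one_re]
  have hx0 : 0 < x := by linarith
  have e : 1 - s.re = 2 + -(s.re + 1) := by ring
  rw [e, Real.rpow_add hx0, Real.rpow_two]
  refine mul_le_mul_of_nonneg_right ((A2_le _).trans ?_) (by positivity)
  exact pow_le_pow_left₀ (Nat.cast_nonneg _) (floor_le' hx) 2

theorem LSeries_A2 {s : ℂ} (hs : 2 < s.re) :
    LSeries ph s = s * ∫ x in Ioi (1 : ℝ), (A2 ⌊x⌋₊ : ℂ) * (x : ℂ) ^ (-(s + 1)) := by
  have h := LSeries_eq_mul_integral_of_nonneg (fun n => (n.totient : ℝ)) (r := 2) (by norm_num) (s := s) hs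
    (Asymptotics.IsBigO.of_bound 1 (Eventually.of_forall fun n => by
      rw [one_mul]
      have h1 : (0 : ℝ) ≤ (n : ℝ) ^ (2 : ℝ) := by positivity
      change ‖A2 n‖ ≤ _
      rw [Real.norm_of_nonneg (A2_nonneg n), Real.norm_of_nonneg h1, Real.rpow_two]
      exact A2_le n)) (fun n => by positivity)
  rw [show (ph : ℕ → ℂ) = fun n => (((n.totient : ℝ)) : ℂ) from funext fun n => by rw [ph, Complex.ofReal_natCast], h]
  congr 1
  refine setIntegral_congr_fun measurableSet_Ioi fun x _ => ?_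
  simp only [A2, Complex.ofReal_sum]

theorem LSeries_A1 {s : ℂ} (hs : 2 < s.re) :
    LSeries ph s = (s - 1) * ∫ x in Ioi (1 : ℝ), (A1 ⌊x⌋₊ : ℂ) * (x : ℂ) ^ (-s) := by
  have h := LSeries_eq_mul_integral_of_nonneg (fun n => (n.totient : ℝ) / n) (r := 1) (by norm_num) (s := s - 1)
    (by rw [Complex.sub_re, Complex.one_re]; linarith)
    (Asymptotics.IsBigO.of_bound 1 (Eventually.of_forall fun n => by
      rw [one_mul]
      have h1 : (0 : ℝ) ≤ (n : ℝ) ^ (1 : ℝ) := by positivity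
      change ‖A1 n‖ ≤ _
      rw [Real.norm_of_nonneg (A1_nonneg n), Real.norm_of_nonneg h1, Real.rpow_one]
      exact A1_le n)) (fun n => by positivity)
  have h2 : LSeries ph s = LSeries (fun n => (((n.totient : ℝ) / n : ℝ) : ℂ)) (s - 1) := by
    unfold LSeries
    refine tsum_congr fun n => ?_
    rcases eq_or_ne n 0 with rfl | hn
    · simp
    · have hn' : (n : ℂ) ≠ 0 := Nat.cast_ne_zero.2 hn
      have h3 : (n : ℂ) ^ s ≠ 0 := by
        rw [Ne, Complex.cpow_eq_zero_iff]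
        exact fun h => hn' h.1
      rw [LSeries.term_of_ne_zero hn, LSeries.term_of_ne_zero hn, Complex.cpow_sub _ _ hn', Complex.cpow_one, ph]
      push_cast
      field_simp
  rw [h2, h]
  congr 1
  refine setIntegral_congr_fun measurableSet_Ioi fun x _ => ?_
  simp only [A1, Complex.ofReal_sum, sub_add_cancel]

/-- the formula for `H` -/
theorem H_eq {s : ℂ} (hs : 2 < s.re) :
    H s = LSeries ph s / (s - 1) - LSeries ph s / s - 3 / (Real.pi : ℂ) ^ 2 / (s - 2) := by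
  have hs0 : s ≠ 0 := fun h => by rw [h, Complex.zero_re] at hs; linarith
  have hs1 : s - 1 ≠ 0 := fun h => by
    rw [sub_eq_zero.1 h, Complex.one_re] at hs; linarith
  have hs2 : s - 2 ≠ 0 := fun h => by
    rw [sub_eq_zero.1 h] at hs
    norm_num at hs
  have e1 : LSeries ph s / (s - 1) = ∫ x in Ioi (1 : ℝ), (A1 ⌊x⌋₊ : ℂ) * (x : ℂ) ^ (-s) := by
    rw [LSeries_A1 hs, mul_div_cancel_left₀ _ hs1]
  have e2 : LSeries ph s / s = ∫ x in Ioi (1 : ℝ), (A2 ⌊x⌋₊ : ℂ) * (x : ℂ) ^ (-(s + 1)) := by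
    rw [LSeries_A2 hs, mul_div_cancel_left₀ _ hs0]
  have hre : (1 - s).re < -1 := by rw [Complex.sub_re, Complex.one_re]; linarith
  have e3 : 3 / (Real.pi : ℂ) ^ 2 / (s - 2) = ∫ x in Ioi (1 : ℝ), 3 / (Real.pi : ℂ) ^ 2 * (x : ℂ) ^ (1 - s) := by
    rw [integral_const_mul, integral_Ioi_cpow_of_lt hre one_pos, Complex.ofReal_one, Complex.one_cpow]
    have e : (1 : ℂ) - s + 1 = -(s - 2) := by ring
    rw [e, neg_div_neg_eq, ← div_eq_mul_one_div]
  have h12 : IntegrableOn (fun x : ℝ => (A1 ⌊x⌋₊ : ℂ) * (x : ℂ) ^ (-s) - (A2 ⌊x⌋₊ : ℂ) * (x : ℂ) ^ (-(s + 1))) (Ioi 1) :=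
    (int_A1 hs).sub (int_A2 hs)
  have h3 : IntegrableOn (fun x : ℝ => 3 / (Real.pi : ℂ) ^ 2 * (x : ℂ) ^ (1 - s)) (Ioi 1) :=
    (integrableOn_Ioi_cpow_of_lt hre one_pos).const_mul _
  rw [e1, e2, e3, ← integral_sub (int_A1 hs) (int_A2 hs), ← integral_sub h12 h3, H]
  refine setIntegral_congr_fun measurableSet_Ioi fun x (hx : 1 < x) => ?_
  have hx0 : (x : ℂ) ≠ 0 := Complex.ofReal_ne_zero.2 (by linarith)
  have f1 : (x : ℂ) ^ (-(s + 1)) = (x : ℂ) ^ (-s) / x := by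
    rw [neg_add, ← sub_eq_add_neg, Complex.cpow_sub _ _ hx0, Complex.cpow_one]
  have f2 : (x : ℂ) ^ (1 - s) = x * (x : ℂ) ^ (-s) := by
    rw [sub_eq_add_neg, Complex.cpow_add _ _ hx0, Complex.cpow_one]
  simp only [F_eq, f1, f2]
  push_cast
  ring

/-- the functional relation for `Re s > 2` -/
theorem rel_gt {s : ℂ} (hs : 2 < s.re) :
    s * Zt s * ((s - 2) * H s + 3 / (Real.pi : ℂ) ^ 2) = Zt (s - 1) := by
  have hs0 : s ≠ 0 := fun h => by rw [h, Complex.zero_re] at hs; linarith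
  have hs1' : s ≠ 1 := fun h => by
    rw [h, Complex.one_re] at hs; linarith
  have hs1 : s - 1 ≠ 0 := sub_ne_zero.2 hs1'
  have hs2 : s - 2 ≠ 0 := fun h => by
    rw [sub_eq_zero.1 h] at hs
    norm_num at hs
  have hs3 : s - 1 ≠ 1 := fun h => hs2 (by linear_combination h)
  rw [Zt_eq hs1', Zt_eq hs3, H_eq hs, ← zeta_mul_LSeries_ph hs]
  have hpi : (Real.pi : ℂ) ≠ 0 := Complex.ofReal_ne_zero.2 Real.pi_ne_zero
  field_simp
  ring

end Pool.Agent.Q192.FA
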