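import Pool.Agent.Q120.FA.Stm

/-!
# Project FA (helper120), job ME, part 1: the function `(s - 1) ζ(s)` and the L-series of the totient function
-/

set_option autoImplicit false

namespace Pool.Agent.Q192.FA

open Complex Filter Topology

/-- the entire function `(s - 1) ζ(s)` -/
noncomputable def Zt : ℂ → ℂ := DirichletCharacter.LFunctionTrivChar₁ 1

theorem differentiable_Zt : Differentiable ℂ Zt := DirichletCharacter.differentiable_LFunctionTrivChar₁ 1

theorem Zt_eq {s : ℂ} (hs : s ≠ 1) : Zt s = (s - 1) * riemannZeta s := by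
  rw [Zt, DirichletCharacter.LFunctionTrivChar₁, Function.update_of_ne hs]
  congr 1
  rw [DirichletCharacter.LFunctionTrivChar, DirichletCharacter.LFunction_modOne_eq]

/-- `ζ(w) ≠ 0` for `-1 < Re w < 0` -/
theorem zeta_ne_zero_left {w : ℂ} (h1 : -1 < w.re) (h2 : w.re < 0) : riemannZeta w ≠ 0 := by
  obtain ⟨s, rfl⟩ : ∃ s : ℂ, w = 1 - s := ⟨1 - w, by ring⟩
  rw [sub_re, one_re] at h1 h2
  have hs1 : 1 < s.re := by linarith
  have hs2 : s.re < 2 := by linarith
  rw [riemannZeta_one_sub (fun n h => by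
      rw [h, neg_re, natCast_re] at hs1
      have : (0 : ℝ) ≤ n := n.cast_nonneg
      linarith) (fun h => by rw [h, one_re] at hs1; exact lt_irrefl _ hs1)]
  have hpi : (2 * (Real.pi : ℂ)) ≠ 0 := by
    simp [Real.pi_ne_zero]
  refine mul_ne_zero (mul_ne_zero (mul_ne_zero (mul_ne_zero two_ne_zero ?_) ?_) ?_) ?_
  · rw [Ne, cpow_eq_zero_iff]
    exact fun h => hpi h.1
  · exact Gamma_ne_zero_of_re_pos (by linarith)
  · rw [Ne, Complex.cos_eq_zero_iff]
    rintro ⟨k, hk⟩
    have hpc : (Real.pi : ℂ) ≠ 0 := ofReal_ne_zero.2 Real.pi_ne_zero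
    have h3 : s = ((2 * k + 1 : ℝ) : ℂ) := by
      push_cast
      apply mul_left_cancel₀ hpc
      linear_combination 2 * hk
    have h4 : s.re = 2 * k + 1 := by rw [h3, ofReal_re]
    have h5 : (0 : ℝ) < k := by linarith
    have h6 : (k : ℝ) < 1 / 2 := by linarith
    have h7 : (1 : ℤ) ≤ k := by exact_mod_cast h5
    have h8 : (1 : ℝ) ≤ k := by exact_mod_cast h7
    linarith
  · exact riemannZeta_ne_zero_of_one_le_re hs1.le

/-- the totient function -/
noncomputable def ph (n : ℕ) : ℂ := (n.totient : ℂ)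

theorem ph_norm_le (n : ℕ) : ‖ph n‖ ≤ n := by
  rw [ph, norm_natCast]
  exact_mod_cast Nat.totient_le n

theorem summable_ph {s : ℂ} (hs : 2 < s.re) : LSeriesSummable ph s := by
  refine LSeriesSummable_of_le_const_mul_rpow (x := 2) hs ⟨1, fun n _ => ?_⟩
  rw [one_mul, show (2 : ℝ) - 1 = 1 by norm_num, Real.rpow_one]
  exact ph_norm_le n

theorem LSeries_id {s : ℂ} (hs : 2 < s.re) : LSeries (fun n => (n : ℂ)) s = riemannZeta (s - 1) := by
  rw [← LSeries_one_eq_riemannZeta (by rw [sub_re, one_re]; linarith)]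
  unfold LSeries
  refine tsum_congr fun n => ?_
  rcases eq_or_ne n 0 with rfl | hn
  · simp
  · rw [LSeries.term_of_ne_zero hn, LSeries.term_of_ne_zero hn, Pi.one_apply, cpow_sub _ _ (Nat.cast_ne_zero.2 hn),
      cpow_one, one_div_div]

/-- `ζ(s) ∑ φ(n) n^(-s) = ζ(s-1)` -/
theorem zeta_mul_LSeries_ph {s : ℂ} (hs : 2 < s.re) : riemannZeta s * LSeries ph s = riemannZeta (s - 1) := by
  rw [← LSeries_id hs, ← LSeries_one_eq_riemannZeta (by linarith),
    ← LSeries_convolution' (LSeriesSummable_one_iff.2 (by linarith)) (summable_ph hs)]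
  refine LSeries_congr (fun {n} hn => ?_) s
  rw [LSeries.convolution_def]
  simp only [Pi.one_apply, one_mul, ph]
  rw [Nat.sum_divisorsAntidiagonal' (f := fun _ b => (b.totient : ℂ))]
  rw [← Nat.cast_sum, Nat.sum_totient]

end Pool.Agent.Q192.FA
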